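import Mathlib
import Pool.Agent.Q85.Mom.ZSum

set_option autoImplicit false

/-!
# The discrete moments of `ζ'` over the critical zeros and the moments of zeta

For every real `β ≥ 1` the sum of `|ζ'(1/2 + iγ)|^β` over the zeros `1/2 + iγ` of zeta on the critical line
with `γ` in an interval of `[T, 8T]` is at most `(β/2) (½ log T + C)^{β+1}` times the `β`-th moment of
`ζ(1/2+it)` over the interval enlarged by `2 log T`, with an absolute constant `C`.
-/

open Filter Topology Set MeasureTheory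

namespace Pool.Agent.Results.MP_f9aece_nt.DerivativeAtZeros

/-- the value `ζ(1/2 + it)` -/
noncomputable def z (t : ℝ) : ℂ := riemannZeta (1 / 2 + t * Complex.I)

/-- the ordinates in `[a, b]` of the zeros on the critical line -/
def Zeros (a b : ℝ) : Set ℝ := {γ | a ≤ γ ∧ γ ≤ b ∧ z γ = 0}

open Pool.Agent.Q85.Mom

theorem result : ∃ C T₀ : ℝ, 0 < C ∧ ∀ β T a b : ℝ, 1 ≤ β → T₀ ≤ T → T + 1 ≤ a → a + C ^ β ≤ b →
    b + 1 ≤ 8 * T → (Zeros a b).Finite ∧
    ∑ᶠ γ ∈ Zeros a b, ‖deriv riemannZeta (1 / 2 + γ * Complex.I)‖ ^ β ≤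
      β / 2 * (Real.log T / 2 + C) ^ (β + 1) *
        ∫ t in (a - 2 * Real.log T)..(b + 2 * Real.log T), ‖z t‖ ^ β := by
  obtain ⟨C, T₀, hC, hT₀, hB⟩ := blk
  refine ⟨C + 2, max T₀ 100, by linarith, fun β T a b hβ hT ha hab hb => ?_⟩
  have hβ0 : 0 < β := by linarith
  have hT1 : T₀ ≤ T := (le_max_left _ _).trans hT
  have hT100 : 100 ≤ T := (le_max_right _ _).trans hT
  have hT3 : 3 ≤ T := by linarith
  have hℓ4 : 4 ≤ Real.log T := by
    have h1 : Real.log (Real.exp 4) ≤ Real.log T := by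
      apply Real.log_le_log (Real.exp_pos _)
      have h2 := Real.exp_one_lt_d9
      have e2 : Real.exp 4 = Real.exp 1 ^ 4 := by rw [← Real.exp_nat_mul]; norm_num
      rw [e2]
      calc Real.exp 1 ^ 4 ≤ 2.7182818286 ^ 4 := by gcongr
        _ ≤ 100 := by norm_num
        _ ≤ T := hT100
    rwa [Real.log_exp] at h1
  set ℓ : ℝ := Real.log T with hℓ
  have hCp : C ^ β ≤ (C + 2) ^ β := Real.rpow_le_rpow (by linarith) (by linarith) hβ0.le
  have hCp0 : 0 < C ^ β := Real.rpow_pos_of_pos (by linarith) _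
  have hab' : a ≤ b := by linarith
  obtain ⟨hn1, -, h1, h2⟩ := hB β T (a - 1) (b + 1) (ℓ / 2) hβ hT1 (by linarith) (by linarith)
    (by linarith) (by linarith) (by linarith)
  rw [show ℓ - ℓ / 2 = ℓ / 2 by ring, max_self] at h1 h2
  set n0 := nrm β (a - 2 * ℓ) (b + 2 * ℓ) Pool.Agent.Q85.Mom.z with hn0
  have hmono : nrm β (a - 1 - ℓ) (b + 1 + ℓ) Pool.Agent.Q85.Mom.z ≤ n0 :=
    nrm_interval hβ0 (by linarith) (by linarith) (by linarith) z_cont
  have hfin : (Zeros a b).Finite := by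
    refine (zeros_fin a b).subset ?_
    rintro γ ⟨g1, g2, g3⟩
    exact ⟨⟨g1, g2⟩, g3⟩
  refine ⟨hfin, ?_⟩
  rw [finsum_mem_eq_finite_toFinset_sum _ hfin]
  have h3 := zsum hβ hT100 (by linarith) hab' (by linarith) (q := ℓ / 2 + C) (n0 := n0) (by linarith)
    ((nrm_interval hβ0 (by linarith) (by linarith) (by linarith) z_cont).trans hmono)
    (h1.trans (mul_le_mul_of_nonneg_left hmono (by linarith)))
    (h2.trans (mul_le_mul_of_nonneg_left hmono (by positivity))) hfin.toFinset (fun u hu => by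
      obtain ⟨g1, g2, g3⟩ := hfin.mem_toFinset.1 hu
      exact ⟨g1, g2, g3⟩)
  refine h3.trans (le_of_eq ?_)
  rw [hn0, nrm_pow hβ0 (by linarith)]
  rw [show ℓ / 2 + C + 2 = ℓ / 2 + (C + 2) by ring]
  rfl

end Pool.Agent.Results.MP_f9aece_nt.DerivativeAtZeros
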