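import Mathlib
import Pool.Agent.Q85.Mom.Near

set_option autoImplicit false

/-!
# The moments of zeta live away from its zeros

For every real `β ≥ 1` the points `t` within `δ / log T` of a zero `1/2 + iγ` of zeta contribute at most
the share `(1/β) (δ/2 + Cδ/log T) ^ β` to the integral of `|ζ(1/2+it)|^β` over intervals in `[T, 8T]`, with
an absolute constant `C`.
-/

open Filter Topology Set MeasureTheory

namespace Pool.Agent.Results.MP_f9aece_nt.MomentsAwayFromZeros

/-- the value `ζ(1/2 + it)` -/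
noncomputable def z (t : ℝ) : ℂ := riemannZeta (1 / 2 + t * Complex.I)

/-- the points within `h` of the ordinate of a zero on the critical line -/
def NearZero (h : ℝ) : Set ℝ := {t | ∃ γ : ℝ, z γ = 0 ∧ |t - γ| ≤ h}

open Pool.Agent.Q85.Mom

theorem result : ∃ C T₀ : ℝ, 0 < C ∧ ∀ β T a b δ : ℝ, 1 ≤ β → T₀ ≤ T → T + 1 ≤ a → a + C ^ β ≤ b →
    b + 1 ≤ 8 * T → 0 ≤ δ → δ ≤ Real.log T →
    ∫ t in Ioc a b ∩ NearZero (δ / Real.log T), ‖z t‖ ^ β ≤
      (δ * (1 / 2 + C / Real.log T)) ^ β / β *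
        ∫ t in (a - 2 * Real.log T)..(b + 2 * Real.log T), ‖z t‖ ^ β := by
  obtain ⟨C, T₀, hC, hT₀, hB⟩ := blk
  refine ⟨C, T₀, by linarith, fun β T a b δ hβ hT ha hab hb hδ hδT => ?_⟩
  have hβ0 : 0 < β := by linarith
  have hT3 : 3 ≤ T := hT₀.trans hT
  have hℓ1 : 1 ≤ Real.log T := by
    have h1 : Real.log (Real.exp 1) ≤ Real.log T := by
      apply Real.log_le_log (Real.exp_pos _)
      have := Real.exp_one_lt_d9
      linarith
    rwa [Real.log_exp] at h1
  set ℓ : ℝ := Real.log T with hℓ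
  set h : ℝ := δ / ℓ with hh
  have hh0 : 0 ≤ h := div_nonneg hδ (by linarith)
  have hh1 : h ≤ 1 := (div_le_one (by linarith)).2 hδT
  have hCp : 0 < C ^ β := Real.rpow_pos_of_pos (by linarith) _
  have hab' : a ≤ b := by linarith
  have hzc : Continuous z := z_cont
  obtain ⟨hn1, -, h1, -⟩ := hB β T (a - h) (b + h) (ℓ / 2) hβ hT (by linarith) (by linarith)
    (by linarith) (by linarith) (by linarith)
  rw [show ℓ - ℓ / 2 = ℓ / 2 by ring, max_self] at h1
  set lam : ℝ := ℓ / 2 with hlam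
  have hz : ∀ t, ff lam t = 0 ↔ z t = 0 := by
    intro t
    rw [← norm_eq_zero, norm_ff, norm_eq_zero]
    rfl
  have hfin : ∀ c d : ℝ, (Icc c d ∩ {γ | ff lam γ = 0}).Finite := by
    intro c d
    have e : {γ | ff lam γ = 0} = {γ | Pool.Agent.Q85.Mom.z γ = 0} := by
      ext γ
      exact hz γ
    rw [e]
    exact zeros_fin c d
  have h2 := near_le hβ (ff_der lam) (ff1_cont lam) hfin hh0 _ (a - h) (b + h) (by linarith) le_rfl
  -- the set integral
  set S := near (ff lam) h (a - h) (b + h) with hS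
  have hSm : MeasurableSet S := near_meas hfin _ _ _
  have e1 : Ioc a b ∩ NearZero h = Ioc a b ∩ S := by
    ext t
    constructor
    · rintro ⟨ht, γ, g1, g2⟩
      have g3 := abs_le.1 g2
      exact ⟨ht, γ, ⟨by linarith [ht.1], by linarith [ht.2]⟩, (hz γ).2 g1, g2⟩
    · rintro ⟨ht, γ, g0, g1, g2⟩
      exact ⟨ht, γ, (hz γ).1 g1, g2⟩
  rw [e1, ← setIntegral_indicator hSm, ← intervalIntegral.integral_of_le hab']
  have e2 : ∀ t, S.indicator (fun t => ‖z t‖ ^ β) t = S.indicator (fun t => ‖ff lam t‖ ^ β) t := by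
    intro t
    simp only [norm_ff]
    rfl
  simp only [e2]
  have h3 : ∫ t in a..b, S.indicator (fun t => ‖ff lam t‖ ^ β) t ≤
      ∫ t in (a - h)..(b + h), S.indicator (fun t => ‖ff lam t‖ ^ β) t := by
    apply intervalIntegral.integral_mono_interval (by linarith) hab' (by linarith)
    · exact Filter.Eventually.of_forall fun t => indicator_nonneg (fun t _ => by positivity) t
    · exact ind_int hβ0.le (ff_cont lam) hSm _ _
  refine (h3.trans h2).trans ?_
  have h4 : ∫ t in (a - h)..(b + h), ‖ff1 lam t‖ ^ β ≤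
      ((lam + C) * nrm β (a - h - ℓ) (b + h + ℓ) Pool.Agent.Q85.Mom.z) ^ β := by
    rw [← nrm_pow hβ0 (by linarith) (ff1 lam), nrm_ff1]
    exact Real.rpow_le_rpow (nrm_nonneg (by linarith) _) h1 hβ0.le
  have h5 : nrm β (a - h - ℓ) (b + h + ℓ) Pool.Agent.Q85.Mom.z ≤
      nrm β (a - 2 * ℓ) (b + 2 * ℓ) Pool.Agent.Q85.Mom.z :=
    nrm_interval hβ0 (by linarith) (by linarith) (by linarith) z_cont
  have h6 : ((lam + C) * nrm β (a - h - ℓ) (b + h + ℓ) Pool.Agent.Q85.Mom.z) ^ β ≤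
      (lam + C) ^ β * ∫ t in (a - 2 * ℓ)..(b + 2 * ℓ), ‖z t‖ ^ β := by
    rw [Real.mul_rpow (by positivity) (nrm_nonneg (by linarith) _)]
    apply mul_le_mul_of_nonneg_left _ (by positivity)
    refine (Real.rpow_le_rpow (nrm_nonneg (by linarith) _) h5 hβ0.le).trans ?_
    rw [nrm_pow hβ0 (by linarith)]
    exact le_rfl
  calc h ^ β / β * ∫ t in (a - h)..(b + h), ‖ff1 lam t‖ ^ β
      ≤ h ^ β / β * ((lam + C) ^ β * ∫ t in (a - 2 * ℓ)..(b + 2 * ℓ), ‖z t‖ ^ β) :=
        mul_le_mul_of_nonneg_left (h4.trans h6) (by positivity)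
    _ = (h * (lam + C)) ^ β / β * ∫ t in (a - 2 * ℓ)..(b + 2 * ℓ), ‖z t‖ ^ β := by
        rw [Real.mul_rpow hh0 (by positivity)]
        ring
    _ = _ := by
        congr 3
        rw [hh, hlam]
        field_simp

end Pool.Agent.Results.MP_f9aece_nt.MomentsAwayFromZeros
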