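import Pool.Agent.W188.Mom.B4

set_option autoImplicit false

/-!
# The moments of zeta of every real order are governed by its values on one single ray

Let `u ≠ 0` be a complex number and `P(u, T)` the finite set of the heights `100 ≤ v ≤ T` at which
`ζ(1/2 + iv)` is a positive multiple of `u`, and `R(T) = ∑_{v ∈ P(u, T)} |ζ(1/2 + iv)|^β` (`β > 0` real).
Then, uniformly in the direction `u`,

* `∫_0^T |ζ(1/2 + it)|^β dt ≤ (C log T)^(β+1) (T + R(2T))`;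
* `R(T) ≤ B T^ε (T + ∫_0^(T+2) |ζ(1/2 + it)|^β dt)`;
* hence the average `a(T)` of the problem is `O(T^ε)` for every `ε > 0` if and only if `R(T)/T` is;
* `R(T) ≥ c T (log T)^(β²/4 - β - 1)` if `β + 1 < β²/4`.

The mathematics is in the team library (`Pool.Agent.W188.Mom.B4`).
-/

open Complex Filter Topology Set MeasureTheory

namespace Pool.Agent.Results.MP_f9aece_nt.MomentsOnOneRay

/-- The heights `100 ≤ v ≤ T` at which `ζ(1/2 + iv)` lies on the ray `{r u : r > 0}`. -/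
def Pts (u : ℂ) (T : ℝ) : Set ℝ :=
  {v | 100 ≤ v ∧ v ≤ T ∧ ∃ r : ℝ, 0 < r ∧ riemannZeta (1 / 2 + v * I) = r * u}

/-- The sum of `|ζ(1/2 + iv)|^β` over the heights `v` in `Pts u T`. -/
noncomputable def RaySum (β : ℝ) (u : ℂ) (T : ℝ) : ℝ :=
  ∑ᶠ v ∈ Pts u T, ‖riemannZeta (1 / 2 + v * I)‖ ^ β

/-- The average `a(T)` of the problem (for `x = 0`). -/
noncomputable def a (β : ℝ) (T : ℝ) : ℝ :=
  1 / T * ∫ t in (0 : ℝ)..T, ‖riemannZeta (1 / 2 + t * I)‖ ^ β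

open Pool.Agent.W188.Mom

lemma RaySum_eq {u : ℂ} (hu : u ≠ 0) (β T : ℝ) : RaySum β u T = RS (u / (‖u‖ : ℂ)) β T :=
  RS_norm hu β T

theorem result :
    (∀ (u : ℂ) (T : ℝ), u ≠ 0 → (Pts u T).Finite) ∧
    (∃ C N : ℝ, 1 ≤ C ∧ ∀ T : ℝ, N ≤ T → ∀ u : ℂ, u ≠ 0 → ∀ β : ℝ, 0 < β →
      T * a β T ≤ (C * Real.log T) ^ (β + 1) * (T + RaySum β u (2 * T))) ∧
    (∀ β : ℝ, 0 < β → ∀ ε : ℝ, 0 < ε → ∃ B : ℝ, 0 < B ∧ ∀ T : ℝ, 1 ≤ T → ∀ u : ℂ, u ≠ 0 →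
      RaySum β u T ≤ B * T ^ ε * (T + (T + 2) * a β (T + 2))) ∧
    (∀ β : ℝ, 0 < β → ∀ u : ℂ, u ≠ 0 →
      ((∀ ε : ℝ, 0 < ε → ∃ B : ℝ, ∀ T : ℝ, 1 ≤ T → a β T ≤ B * T ^ ε) ↔
        ∀ ε : ℝ, 0 < ε → ∃ B : ℝ, ∀ T : ℝ, 1 ≤ T → RaySum β u T / T ≤ B * T ^ ε)) ∧
    (∀ β : ℝ, 2 ≤ β → β + 1 < β ^ 2 / 4 → ∃ c T₀ : ℝ, 0 < c ∧ ∀ T : ℝ, T₀ ≤ T → ∀ u : ℂ, u ≠ 0 →
      c * T * Real.log T ^ (β ^ 2 / 4 - β - 1) ≤ RaySum β u T) := by
  refine ⟨fun u T hu => ?_, ?_, fun β hβ ε hε => ?_, fun β hβ u hu => ?_, fun β hβ hβ2 => ?_⟩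
  · have h := RP_finite (norm_dir hu) T
    rw [← RP_norm hu] at h
    exact h
  · obtain ⟨C, N, hC, hN, h⟩ := major
    refine ⟨C, N, hC, fun T hT u hu β hβ => ?_⟩
    have h1 := h T hT _ (norm_dir hu) β hβ
    rw [RaySum_eq hu]
    have hT0 : T ≠ 0 := by linarith
    have e1 : T * a β T = ∫ t in (0 : ℝ)..T, Z t ^ β := by
      unfold a Z
      rw [← mul_assoc, mul_one_div_cancel hT0, one_mul]
    rw [e1]
    exact h1
  · obtain ⟨B, hB, h⟩ := RS_le hβ hε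
    refine ⟨B, hB, fun T hT u hu => ?_⟩
    rw [RaySum_eq hu]
    have hT0 : T + 2 ≠ 0 := by linarith
    have e1 : (T + 2) * a β (T + 2) = ∫ t in (0 : ℝ)..(T + 2), Z t ^ β := by
      unfold a Z
      rw [← mul_assoc, mul_one_div_cancel hT0, one_mul]
    rw [e1]
    exact h T hT _ (norm_dir hu)
  · constructor
    · intro h ε hε
      obtain ⟨B, hB⟩ := ray_of_moment hβ (fun ε hε => h ε hε) (norm_dir hu) ε hε
      refine ⟨B, fun T hT => ?_⟩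
      have h1 := hB T hT
      rw [RaySum_eq hu, div_eq_mul_inv, mul_comm, ← one_div]
      exact h1
    · intro h ε hε
      refine moment_of_ray hβ (norm_dir hu) (fun ε hε => ?_) ε hε
      obtain ⟨B, hB⟩ := h ε hε
      refine ⟨B, fun T hT => ?_⟩
      have h1 := hB T hT
      rw [RaySum_eq hu, div_eq_mul_inv, mul_comm, ← one_div] at h1
      exact h1
  · obtain ⟨c, T₀, hc, h⟩ := ray_lower hβ hβ2
    refine ⟨c, T₀, hc, fun T hT u hu => ?_⟩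
    rw [RaySum_eq hu]
    exact h T hT _ (norm_dir hu)

end Pool.Agent.Results.MP_f9aece_nt.MomentsOnOneRay
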