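import Pool.Agent.Q231.RS.Mom3

/-!
# The growth exponent of the moments of zeta is seen by random sample points

Let `β > 0`, `κ ≥ 0`, and let `a(T)` be the average of the problem (with any shift `x`). Let `X_j` be random points that hit
every measurable subset `E` of a unit interval `[n, n + 1]`, `n ≥ n₀`, with probability at least `c |E|`, and such that the
mean number of the points in `E ⊆ [0, ∞)` is at most `C |E|`; nothing else is assumed, in particular no independence.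
Then `a(T) = O(T^(κ + ε))` for every `ε > 0` if and only if, almost surely,
`∑_{0 ≤ X_j ≤ T} |ζ(1/2 + iX_j)|^β = O(T^(1 + κ + ε))` for every `ε > 0`. In particular this holds if and only if
`(1/N) ∑_{n < N} |ζ(1/2 + i(n + θ))|^β = O(N^(κ + ε))` for almost every `θ`, and if and only if
`(1/N) ∑_{n ≤ N} |ζ(1/2 + iαn)|^β = O(N^(κ + ε))` for almost every `α > 0`.

Proof. The step from the integral to the samples is the Borel-Cantelli lemma. For the converse: a value `w` of `|ζ|^β` at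
the height `T` that is larger than `T^ε` persists, up to a factor `T^ε`, on a set of measure at least `δ = δ(ε)` near `T`
(starting library), so that the sample contains such a value with probability at least `q = cδ`. A sum of the weights `w`
over events of probability at least `q` is at least `q/2` times the sum of all weights, with probability at least `q/2`.
If the moment is larger than `B T^(1 + κ + ε)` for every `B` and some `T`, then with probability at least `q/2` this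
happens for infinitely many of these `T`.
-/

set_option autoImplicit false

open MeasureTheory Filter Set

namespace Pool.Agent.Results.MP_f9aece_nt.RandomSampling

/-- `|ζ(1/2 + it)|` -/
noncomputable def Z (t : ℝ) : ℝ := ‖riemannZeta (1 / 2 + t * Complex.I)‖

/-- The average `a(T) = ∫_0^1 |ζ(1/2 + ix + iuT)|^β du` of the problem. -/
noncomputable def a (β x T : ℝ) : ℝ := ∫ u in (0 : ℝ)..1, Z (x + u * T) ^ β

open Classical in
/-- The sum of `|ζ(1/2 + iX_j)|^β` over the points `X_j` (at the outcome `ω`) in `[0, T]`. -/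
noncomputable def SampleSum {Ω J : Type} (β : ℝ) (X : J → Ω → ℝ) (ω : Ω) (T : ℝ) : ENNReal :=
  ∑' j, if 0 ≤ X j ω ∧ X j ω ≤ T then ENNReal.ofReal (Z (X j ω) ^ β) else 0

/-- The random points `X j` hit every measurable subset `E` of `[n, n + 1]`, `n ≥ n₀`, with probability at least
`c |E|`, and the mean number of them in a measurable `E ⊆ [0, ∞)` is at most `C |E|`. Nothing is assumed about their
dependence. -/
def GoodSample {Ω : Type} [MeasurableSpace Ω] (P : Measure Ω) {J : Type} (X : J → Ω → ℝ) : Prop :=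
  (∃ (c : ℝ) (n₀ : ℤ), 0 < c ∧ ∀ n : ℤ, n₀ ≤ n → ∀ E : Set ℝ, MeasurableSet E → E ⊆ Icc (n : ℝ) (n + 1) →
    ENNReal.ofReal c * volume E ≤ P {ω | ∃ j, X j ω ∈ E}) ∧
  ∃ C : ℝ, ∀ E : Set ℝ, MeasurableSet E → E ⊆ Ici 0 → ∑' j, P (X j ⁻¹' E) ≤ ENNReal.ofReal C * volume E

lemma SampleSum_eq {Ω J : Type} [MeasurableSpace Ω] (β : ℝ) (X : J → Ω → ℝ) (ω : Ω) (T : ℝ) :
    SampleSum β X ω T = Pool.Agent.Q231.RS.SS β X ω T := by
  classical
  unfold SampleSum Pool.Agent.Q231.RS.SS Pool.Agent.Q231.RS.gT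
  refine tsum_congr fun j => ?_
  by_cases h : 0 ≤ X j ω ∧ X j ω ≤ T
  · rw [if_pos h, indicator_of_mem (show X j ω ∈ Icc (0 : ℝ) T from h)]
    rfl
  · rw [if_neg h, indicator_of_notMem (show X j ω ∉ Icc (0 : ℝ) T from h)]

/-- **The growth exponent of the moments of zeta is the growth exponent of the moments at random sample points.** -/
theorem result (β κ x : ℝ) (hβ : 0 < β) (hκ : 0 ≤ κ) :
    -- random points
    (∀ (Ω : Type) [MeasurableSpace Ω] (P : Measure Ω) [IsProbabilityMeasure P] (J : Type) [Countable J]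
      (X : J → Ω → ℝ), (∀ j, Measurable (X j)) → GoodSample P X →
        ((∀ ε : ℝ, 0 < ε → ∃ B : ℝ, ∀ T : ℝ, 1 ≤ T → a β x T ≤ B * T ^ (κ + ε)) ↔
          ∀ᵐ ω ∂P, ∀ ε : ℝ, 0 < ε → ∃ B : ℝ, ∀ T : ℝ, 1 ≤ T →
            SampleSum β X ω T ≤ ENNReal.ofReal (B * T ^ (1 + κ + ε)))) ∧
    -- translates of the integers
    ((∀ ε : ℝ, 0 < ε → ∃ B : ℝ, ∀ T : ℝ, 1 ≤ T → a β x T ≤ B * T ^ (κ + ε)) ↔
      ∀ᵐ θ : ℝ, 0 < θ → θ < 1 → ∀ ε : ℝ, 0 < ε → ∃ B : ℝ, ∀ N : ℕ, 1 ≤ N →
        (∑ n ∈ Finset.range N, Z (n + θ) ^ β) / N ≤ B * (N : ℝ) ^ (κ + ε)) ∧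
    -- dilates of the integers
    ((∀ ε : ℝ, 0 < ε → ∃ B : ℝ, ∀ T : ℝ, 1 ≤ T → a β x T ≤ B * T ^ (κ + ε)) ↔
      ∀ᵐ α : ℝ, 0 < α → ∀ ε : ℝ, 0 < ε → ∃ B : ℝ, ∀ N : ℕ, 1 ≤ N →
        (∑ n ∈ Finset.range N, Z (α * ((n : ℝ) + 1)) ^ β) / N ≤ B * (N : ℝ) ^ (κ + ε)) := by
  have hmom : (∀ ε : ℝ, 0 < ε → ∃ B : ℝ, ∀ T : ℝ, 1 ≤ T → a β x T ≤ B * T ^ (κ + ε)) ↔
      Pool.Agent.Q231.RS.MomBd β (1 + κ) := Pool.Agent.Q231.RS.mom_shift hβ hκ x
  have hdiv : ∀ (N : ℕ) (S B ε : ℝ), 1 ≤ N →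
      (S / N ≤ B * (N : ℝ) ^ (κ + ε) ↔ S ≤ B * (N : ℝ) ^ (1 + κ + ε)) := by
    intro N S B ε hN
    have hN0 : (0 : ℝ) < N := by exact_mod_cast hN
    have e1 : (N : ℝ) ^ (1 + κ + ε) = (N : ℝ) ^ (κ + ε) * N := by
      rw [show 1 + κ + ε = κ + ε + 1 by ring, Real.rpow_add hN0, Real.rpow_one]
    rw [div_le_iff₀ hN0, e1, mul_assoc]
  refine ⟨?_, ?_, ?_⟩
  · intro Ω _ P _ J _ X hX hgood
    obtain ⟨⟨c, n₀, hc, hhit⟩, C, hC⟩ := hgood
    rw [hmom]
    have hS : (∀ᵐ ω ∂P, ∀ ε : ℝ, 0 < ε → ∃ B : ℝ, ∀ T : ℝ, 1 ≤ T →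
        SampleSum β X ω T ≤ ENNReal.ofReal (B * T ^ (1 + κ + ε))) ↔
        ∀ᵐ ω ∂P, Pool.Agent.Q231.RS.SampBd β (1 + κ) X ω := by
      unfold Pool.Agent.Q231.RS.SampBd
      simp only [SampleSum_eq]
    rw [hS]
    constructor
    · intro h
      exact Pool.Agent.Q231.RS.samp_of_mom hβ hX (fun E hE hE0 => hC E hE hE0) h (by linarith)
    · intro h
      exact Pool.Agent.Q231.RS.mom_of_samp hβ (by linarith) hX hc (n₀ := n₀)
        (fun n hn E hE hsub => hhit n hn E hE hsub) h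
  · rw [hmom, Pool.Agent.Q231.RS.mom_translate hβ (by linarith)]
    refine Filter.eventually_congr (Eventually.of_forall fun θ => ?_)
    refine imp_congr_right fun _ => imp_congr_right fun _ => forall_congr' fun ε => imp_congr_right fun _ =>
      exists_congr fun B => forall_congr' fun N => ?_
    refine imp_congr_right fun hN => ?_
    exact (hdiv N _ B ε hN).symm
  · rw [hmom, Pool.Agent.Q231.RS.mom_dilate hβ (by linarith)]
    refine Filter.eventually_congr (Eventually.of_forall fun α => ?_)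
    refine imp_congr_right fun _ => forall_congr' fun ε => imp_congr_right fun _ =>
      exists_congr fun B => forall_congr' fun N => ?_
    refine imp_congr_right fun hN => ?_
    exact (hdiv N _ B ε hN).symm

end Pool.Agent.Results.MP_f9aece_nt.RandomSampling
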